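import Pool.Agent.Helper11.TNG.POS

/-!
# Tangled labelings (MP_21b3ca_co): row CON
-/

namespace Pool.Agent.Helper8.TNG

open Finset

theorem CON_le {P : Type} [Fintype P] [PartialOrder P] {p q : P} (h : p ≤ q) :
    (SimpleGraph.hasse P).Reachable p q := by
  classical
  letI : LocallyFiniteOrder P := Fintype.toLocallyFiniteOrder
  have h1 := (le_iff_reflTransGen_covBy (x := p) (y := q)).1 h
  induction h1 with
  | refl => exact SimpleGraph.Reachable.refl _
  | tail _ h2 ih =>
    refine SimpleGraph.Reachable.trans (ih ?_) (SimpleGraph.Adj.reachable (Or.inl h2))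
    rename_i b c h3
    exact (le_iff_reflTransGen_covBy (x := p) (y := b)).2 h3

theorem st_CON (_ : ST_POS) : ST_CON := by
  intro B M K K' _
  have hle : ∀ p q : El B M K K', tlt p.1 q.1 = true →
      (SimpleGraph.hasse (El B M K K')).Reachable p q := fun p q h => CON_le (Or.inr h)
  have hxe := hle (eX B M K K') (eE B M K K') rfl
  have hye := hle (eY B M K K') (eE B M K K') rfl
  have hxy : (SimpleGraph.hasse (El B M K K')).Reachable (eX B M K K') (eY B M K K') :=
    hxe.trans hye.symm
  have hall : ∀ p : El B M K K', (SimpleGraph.hasse (El B M K K')).Reachable (eX B M K K') p := by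
    intro p
    obtain ⟨t, i⟩ := p
    cases t with
    | x =>
      have h : (⟨Tok.x, i⟩ : El B M K K') = eX B M K K' :=
        congrArg (Sigma.mk Tok.x) (POS_fin1 i)
      rw [h]
    | y =>
      have h : (⟨Tok.y, i⟩ : El B M K K') = eY B M K K' :=
        congrArg (Sigma.mk Tok.y) (POS_fin1 i)
      rw [h]
      exact hxy
    | o => exact hle _ _ rfl
    | a => exact hxy.trans (hle _ _ rfl)
    | b => exact hxy.trans (hle _ _ rfl)
    | c => exact hle _ _ rfl
    | e => exact hle _ _ rfl
    | z => exact hle _ _ rfl
    | f => exact hle _ _ rfl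
    | g => exact hxy.trans (hle _ _ rfl)
  haveI : Nonempty (El B M K K') := ⟨eX B M K K'⟩
  exact SimpleGraph.Connected.mk (fun p q => (hall p).symm.trans (hall q))

end Pool.Agent.Helper8.TNG
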