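import Pool.Agent.Helper11.TNG.POS

/-!
# Tangled labelings (MP_21b3ca_co): row EB
-/

namespace Pool.Agent.Helper8.TNG

open Finset

theorem EB_nE {α β : Type} (F : β → Bool) (h : α → β) :
    ∀ w : List α, nE F (w.map h) = nE (fun p => F (h p)) w
  | [] => rfl
  | [p] => rfl
  | p :: q :: w => by
    have ih := EB_nE F h (q :: w)
    simp only [List.map_cons] at ih ⊢
    simp only [nE]
    rw [ih]

theorem EB_card (B M K K' : ℕ) (φ : Tok → Bool) :
    (Finset.univ.filter (fun p : El B M K K' => φ (tk p) = true)).card =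
      ∑ t : Tok, if φ t = true then cnt B M K K' t else 0 := by
  rw [Finset.card_filter]
  have h : ∀ G : El B M K K' → ℕ, ∑ p : El B M K K', G p =
      ∑ t : Tok, ∑ i : Fin (cnt B M K K' t), G ⟨t, i⟩ := fun G =>
    Fintype.sum_sigma (fun p : (Σ t : Tok, Fin (cnt B M K K' t)) => G p)
  rw [h]
  refine Finset.sum_congr rfl (fun t _ => ?_)
  simp only [tk]
  by_cases h1 : φ t = true
  · simp [h1]
  · simp [h1]

theorem EB_card2 (B M K K' : ℕ) (φ : Tok → Bool) (u l : El B M K K') (hul : u ≠ l)
    (hu : φ (tk u) = true) (hl : φ (tk l) = true) :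
    ((Finset.univ \ {u, l}).filter (fun p : El B M K K' => φ (tk p) = true)).card =
      (∑ t : Tok, if φ t = true then cnt B M K K' t else 0) - 2 := by
  have h1 : (Finset.univ \ {u, l}).filter (fun p : El B M K K' => φ (tk p) = true) =
      (Finset.univ.filter (fun p : El B M K K' => φ (tk p) = true)) \ {u, l} := by
    ext p
    simp only [Finset.mem_filter, Finset.mem_sdiff, Finset.mem_univ, true_and]
    tauto
  rw [h1, Finset.card_sdiff_of_subset, EB_card, Finset.card_pair hul]
  intro p hp
  rw [Finset.mem_insert, Finset.mem_singleton] at hp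
  rw [Finset.mem_filter]
  rcases hp with rfl | rfl
  · exact ⟨Finset.mem_univ _, hu⟩
  · exact ⟨Finset.mem_univ _, hl⟩

theorem EB_cardAm (B M K K' : ℕ) (u l : El B M K K') (t : Tok) (hul : u ≠ l)
    (hu : tk u ≠ t) (hl : tk l ≠ t) :
    (Am B M K K' u l t).card =
      (∑ s : Tok, if decide (s ≠ t) = true then cnt B M K K' s else 0) - 2 := by
  unfold Am
  exact EB_card2 B M K K' (fun s => decide (s ≠ t)) u l hul (by simpa using hu) (by simpa using hl)

theorem EB_cardAmF (B M K K' : ℕ) (u l : El B M K K') (t t' : Tok) (hul : u ≠ l)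
    (hu : tk u ≠ t) (hl : tk l ≠ t) (hu' : tk u ≠ t') (hl' : tk l ≠ t') :
    ((Am B M K K' u l t).filter (fun p => decide (tk p = t') = false)).card =
      (∑ s : Tok, if decide (s ≠ t ∧ s ≠ t') = true then cnt B M K K' s else 0) - 2 := by
  rw [← EB_card2 B M K K' (fun s => decide (s ≠ t ∧ s ≠ t')) u l hul (by simp [hu, hu'])
    (by simp [hl, hl'])]
  congr 1
  unfold Am
  ext p
  simp only [Finset.mem_filter, decide_eq_true_eq, decide_eq_false_iff_not]
  tauto

theorem st_EB (_ : ST_WC) (hN1 : ST_N1) (hN2 : ST_N2) (_ : ST_POS) : ST_EB := by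
  intro B M K K' l hl
  have hl1 : tk l ≠ .g := by rcases hl with h | h | h <;> rw [h] <;> decide
  have hl2 : tk l ≠ .f := by rcases hl with h | h | h <;> rw [h] <;> decide
  have hxl : eX B M K K' ≠ l := by
    rintro rfl
    rcases hl with h | h | h
    · exact absurd (show Tok.x = Tok.e from h) (by decide)
    · exact absurd (show Tok.x = Tok.z from h) (by decide)
    · exact absurd (show Tok.x = Tok.c from h) (by decide)
  have hyl : eY B M K K' ≠ l := by
    rintro rfl
    rcases hl with h | h | h
    · exact absurd (show Tok.y = Tok.e from h) (by decide)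
    · exact absurd (show Tok.y = Tok.z from h) (by decide)
    · exact absurd (show Tok.y = Tok.c from h) (by decide)
  have hyg : tk (eY B M K K') ≠ .g := (show Tok.y ≠ Tok.g by decide)
  have hyf : tk (eY B M K K') ≠ .f := (show Tok.y ≠ Tok.f by decide)
  have hxg : tk (eX B M K K') ≠ .g := (show Tok.x ≠ Tok.g by decide)
  have hxf : tk (eX B M K K') ≠ .f := (show Tok.x ≠ Tok.f by decide)
  constructor
  · have hc := EB_cardAm B M K K' (eY B M K K') l .g hyl hyg hl1
    have hd := EB_cardAmF B M K K' (eY B M K K') l .g .f hyl hyg hl1 hyf hl2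
    rw [POS_sum] at hc hd
    simp only [cnt] at hc hd
    have hc' : (Am B M K K' (eY B M K K') l .g).card = B + M + 5 + K := by
      rw [hc]
      simp
      omega
    have hd' : ((Am B M K K' (eY B M K K') l .g).filter
        (fun p => decide (tk p = Tok.f) = false)).card = B + M + 5 := by
      rw [hd]
      simp
      omega
    have h := hN2 (El B M K K') (Am B M K K' (eY B M K K') l .g)
      (fun p => decide (tk p = Tok.f)) (by omega)
    unfold e2
    simp only [EB_nE]
    refine le_trans h (le_of_eq ?_)
    rw [hd', hc']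
    push_cast
    congr 1
    ring
  · have hc := EB_cardAm B M K K' (eX B M K K') l .f hxl hxf hl2
    have hd := EB_cardAmF B M K K' (eX B M K K') l .f .g hxl hxf hl2 hxg hl1
    rw [POS_sum] at hc hd
    simp only [cnt] at hc hd
    have hc' : (Am B M K K' (eX B M K K') l .f).card = B + M + 5 + K' := by
      rw [hc]
      simp
      omega
    have hd' : ((Am B M K K' (eX B M K K') l .f).filter
        (fun p => decide (tk p = Tok.g) = false)).card = B + M + 5 := by
      rw [hd]
      simp
      omega
    have h := hN1 (El B M K K') (Am B M K K' (eX B M K K') l .f)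
      (fun p => decide (tk p = Tok.g)) (by omega)
    unfold e1
    simp only [EB_nE]
    refine le_trans h (le_of_eq ?_)
    rw [hd', hc']
    push_cast
    rfl

end Pool.Agent.Helper8.TNG
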