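import Pool.Agent.Helper8.TNG.Stmts

/-!
# Tangled labelings (MP_21b3ca_co): row POS
-/

namespace Pool.Agent.Helper8.TNG

open Finset

theorem POS_tlt_irrefl (t : Tok) : tlt t t = false := by
  cases t <;> rfl

theorem POS_tlt_asymm (s t : Tok) (h : tlt s t = true) : tlt t s = false := by
  revert h
  revert s t
  decide

theorem POS_lt (B M K K' : ℕ) (p q : El B M K K') : elt B M K K' p q = true ↔ p < q := by
  rw [lt_iff_le_not_ge]
  constructor
  · intro h
    refine ⟨Or.inr h, ?_⟩
    rintro (h1 | h1)
    · subst h1
      unfold elt at h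
      rw [POS_tlt_irrefl] at h
      exact absurd h (by decide)
    · unfold elt at h h1
      rw [POS_tlt_asymm _ _ h] at h1
      exact absurd h1 (by decide)
  · rintro ⟨h1, h2⟩
    rcases h1 with h1 | h1
    · exact absurd (le_of_eq h1.symm) h2
    · exact h1

theorem POS_sum (F : Tok → ℕ) : ∑ t : Tok, F t =
    F .x + F .y + F .o + F .a + F .b + F .c + F .e + F .z + F .f + F .g := by
  have h : (Finset.univ : Finset Tok) = {.x, .y, .o, .a, .b, .c, .e, .z, .f, .g} := rfl
  rw [h]
  rw [Finset.sum_insert (by decide), Finset.sum_insert (by decide), Finset.sum_insert (by decide),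
    Finset.sum_insert (by decide), Finset.sum_insert (by decide), Finset.sum_insert (by decide),
    Finset.sum_insert (by decide), Finset.sum_insert (by decide), Finset.sum_insert (by decide),
    Finset.sum_singleton]
  ring

theorem POS_card (B M K K' : ℕ) : Fintype.card (El B M K K') = B + M + K + K' + 7 := by
  have h : Fintype.card (El B M K K') = Fintype.card (Σ t : Tok, Fin (cnt B M K K' t)) := rfl
  rw [h, Fintype.card_sigma]
  simp only [Fintype.card_fin]
  rw [POS_sum]
  simp only [cnt]
  ring

theorem POS_notmin (B M K K' : ℕ) (p q : El B M K K') (h : tlt q.1 p.1 = true) : ¬ IsMin p := by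
  intro hp
  have h1 : q < p := (POS_lt B M K K' q p).1 h
  exact absurd h1 hp.not_lt

theorem POS_min (B M K K' : ℕ) (p : El B M K K')
    (h : ∀ t, tlt t p.1 = false) : IsMin p := by
  intro q hq
  rcases hq with hq | hq
  · exact le_of_eq hq.symm
  · unfold elt at hq
    rw [h] at hq
    exact absurd hq (by decide)

theorem POS_fin1 (i : Fin 1) : i = 0 := by omega

theorem st_POS : ST_POS := by
  intro B M K K'
  refine ⟨POS_lt B M K K', POS_card B M K K', ?_⟩
  intro p
  constructor
  · intro hp
    obtain ⟨t, i⟩ := p
    cases t with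
    | x => left; exact congrArg (Sigma.mk Tok.x) (POS_fin1 i)
    | y => right; exact congrArg (Sigma.mk Tok.y) (POS_fin1 i)
    | o => exact absurd hp (POS_notmin B M K K' _ (eX B M K K') rfl)
    | a => exact absurd hp (POS_notmin B M K K' _ (eY B M K K') rfl)
    | b => exact absurd hp (POS_notmin B M K K' _ (eY B M K K') rfl)
    | c => exact absurd hp (POS_notmin B M K K' _ (eX B M K K') rfl)
    | e => exact absurd hp (POS_notmin B M K K' _ (eX B M K K') rfl)
    | z => exact absurd hp (POS_notmin B M K K' _ (eX B M K K') rfl)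
    | f => exact absurd hp (POS_notmin B M K K' _ (eX B M K K') rfl)
    | g => exact absurd hp (POS_notmin B M K K' _ (eY B M K K') rfl)
  · rintro (rfl | rfl)
    · apply POS_min
      intro t
      cases t <;> rfl
    · apply POS_min
      intro t
      cases t <;> rfl

end Pool.Agent.Helper8.TNG
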