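import Pool.Agent.Helper11.TNG.EB

/-!
# Tangled labelings (MP_21b3ca_co): row SUM
-/

namespace Pool.Agent.Helper8.TNG

open Finset

theorem SUM_sum (F : Tok → ℝ) : ∑ t : Tok, F t =
    F .x + F .y + F .o + F .a + F .b + F .c + F .e + F .z + F .f + F .g := by
  have h : (Finset.univ : Finset Tok) = {.x, .y, .o, .a, .b, .c, .e, .z, .f, .g} := rfl
  rw [h]
  rw [Finset.sum_insert (by decide), Finset.sum_insert (by decide), Finset.sum_insert (by decide),
    Finset.sum_insert (by decide), Finset.sum_insert (by decide), Finset.sum_insert (by decide),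
    Finset.sum_insert (by decide), Finset.sum_insert (by decide), Finset.sum_insert (by decide),
    Finset.sum_singleton]
  ring

theorem SUM_tk (B M K K' : ℕ) (G : Tok → ℝ) :
    ∑ p : El B M K K', G (tk p) = ∑ t : Tok, (cnt B M K K' t : ℝ) * G t := by
  have h : ∀ G : El B M K K' → ℝ, ∑ p : El B M K K', G p =
      ∑ t : Tok, ∑ i : Fin (cnt B M K K' t), G ⟨t, i⟩ := fun G =>
    Fintype.sum_sigma (fun p : (Σ t : Tok, Fin (cnt B M K K' t)) => G p)
  rw [h]
  refine Finset.sum_congr rfl (fun t _ => ?_)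
  simp only [tk]
  rw [Finset.sum_const, Finset.card_univ, Fintype.card_fin, nsmul_eq_mul]

theorem SUM_xy (B M K K' : ℕ) (G : Tok → ℝ) :
    ∑ p ∈ Finset.univ \ {eX B M K K', eY B M K K'}, G (tk p) =
      (∑ t : Tok, (cnt B M K K' t : ℝ) * G t) - G .x - G .y := by
  have hne : eX B M K K' ≠ eY B M K K' := by
    intro h
    exact absurd (show Tok.x = Tok.y from congrArg tk h) (by decide)
  have h := Finset.sum_sdiff (f := fun p : El B M K K' => G (tk p))
    (Finset.subset_univ {eX B M K K', eY B M K K'})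
  rw [Finset.sum_pair hne, SUM_tk] at h
  have h1 : G (tk (eX B M K K')) = G .x := rfl
  have h2 : G (tk (eY B M K K')) = G .y := rfl
  rw [h1, h2] at h
  linarith

/-- The lower bound for one server, by kind. -/
noncomputable def SUM_lb (E2 E1 CE CZ GZ : ℝ) : Tok → ℝ
  | .c => 1 - E2
  | .e => 1 - CE - E2 - E1
  | .z => 1 + GZ - CZ - 2 * E2 - E1
  | _ => 1

theorem st_SUM (_ : ST_PB) (hTRV : ST_TRV) (hSVC : ST_SVC) (hSVE : ST_SVE) (hSVZ : ST_SVZ)
    (hCZ : ST_CZ) (hCE : ST_CE) (hGZ : ST_GZ) (hEB : ST_EB) (_ : ST_POS) : ST_SUM := by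
  intro B M K K' hB hM
  have hCZ' := hCZ B M K K'
  have hCE' := hCE B M K K' hB
  have hGZ' := hGZ B M K K' hB
  have hE1 : 0 ≤ ((B : ℝ) + M + 5) ^ 2 / ((B : ℝ) + M + 5 + K') := by positivity
  have hM1 : (0 : ℝ) ≤ M := Nat.cast_nonneg M
  have hEBc : ∀ l : El B M K K', (tk l = .e ∨ tk l = .z ∨ tk l = .c) →
      e2 B M K K' l ≤ ((B : ℝ) + M + 5) ^ 4 /
        (((B : ℝ) + M + 5 + K) * ((B : ℝ) + M + 4 + K)) ∧
      e1 B M K K' l ≤ ((B : ℝ) + M + 5) ^ 2 / ((B : ℝ) + M + 5 + K') :=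
    fun l hl => hEB B M K K' l hl
  generalize hE1' : ((B : ℝ) + M + 5) ^ 2 / ((B : ℝ) + M + 5 + K') = E1 at hE1 hEBc ⊢
  generalize hE2' : ((B : ℝ) + M + 5) ^ 4 /
    (((B : ℝ) + M + 5 + K) * ((B : ℝ) + M + 4 + K)) = E2 at hEBc ⊢
  generalize hGZ'' : (B : ℝ) / (2 * ((B : ℝ) + M + 5 + K) * ((B + M + 4) * (B + M + 3))) = G
    at hGZ' ⊢
  generalize hCZ'' : 4 / (((B : ℝ) + M + 5 + K) * ((M + 2) * (M + 3))) = C at hCZ' ⊢
  generalize hCE'' : (2 * ((M : ℝ) + 4)) / (((B : ℝ) + M + 5 + K) * ((B + 1) * (B + 2))) = D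
    at hCE' ⊢
  have key : ∀ l ∈ Finset.univ \ {eX B M K K', eY B M K K'},
      SUM_lb E2 E1 D C G (tk l) ≤ sv B M K K' l := by
    intro l hl
    rw [Finset.mem_sdiff, Finset.mem_insert, Finset.mem_singleton] at hl
    have hl2 := hl.2
    obtain ⟨t, i⟩ := l
    cases t with
    | x => exact absurd (Or.inl (congrArg (Sigma.mk Tok.x) (POS_fin1 i))) hl2
    | y => exact absurd (Or.inr (congrArg (Sigma.mk Tok.y) (POS_fin1 i))) hl2
    | o => exact hTRV B M K K' _ (Or.inl rfl)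
    | a => exact hTRV B M K K' _ (Or.inr (Or.inr (Or.inl rfl)))
    | b => exact hTRV B M K K' _ (Or.inr (Or.inr (Or.inr (Or.inl rfl))))
    | c =>
      have h1 := hSVC B M K K' ⟨.c, i⟩ rfl
      have h2 := (hEBc ⟨.c, i⟩ (Or.inr (Or.inr rfl))).1
      have h3 : SUM_lb E2 E1 D C G (tk (⟨.c, i⟩ : El B M K K')) = 1 - E2 := rfl
      rw [h3]
      linarith
    | e =>
      have h0 : (⟨Tok.e, i⟩ : El B M K K') = eE B M K K' :=
        congrArg (Sigma.mk Tok.e) (POS_fin1 i)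
      rw [h0]
      have h1 := hSVE B M K K'
      have h2 := hEBc (eE B M K K') (Or.inl rfl)
      have h3 : SUM_lb E2 E1 D C G (tk (eE B M K K')) = 1 - D - E2 - E1 := rfl
      rw [h3]
      linarith [h2.1, h2.2]
    | z =>
      have h0 : (⟨Tok.z, i⟩ : El B M K K') = eZ B M K K' :=
        congrArg (Sigma.mk Tok.z) (POS_fin1 i)
      rw [h0]
      have h1 := hSVZ B M K K'
      have h2 := hEBc (eZ B M K K') (Or.inr (Or.inl rfl))
      have h3 : SUM_lb E2 E1 D C G (tk (eZ B M K K')) = 1 + G - C - 2 * E2 - E1 := rfl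
      rw [h3]
      linarith [h2.1, h2.2]
    | f => exact hTRV B M K K' _ (Or.inr (Or.inl rfl))
    | g => exact hTRV B M K K' _ (Or.inr (Or.inr (Or.inr (Or.inr rfl))))
  refine le_trans ?_ (Finset.sum_le_sum key)
  rw [SUM_xy, SUM_sum]
  simp only [cnt, SUM_lb]
  push_cast
  have h := mul_nonneg hM1 hE1
  nlinarith [h]

end Pool.Agent.Helper8.TNG
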